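import Pool.Agent.Helper94.GA.Goals

/-!
# Packet CHN (MP_d69e80_al): chain inequality over `Fin m`
-/

namespace Pool.Agent.Helper89.GA

open Finset
open Pool.Agent.Helper94.GA

universe u v w

theorem ent_equiv {Ω Ω' : Type u} {X : Type v} [Fintype Ω] [Fintype Ω'] (e : Ω' ≃ Ω)
    (g : Ω → X) : ent (fun ω' => g (e ω')) = ent g := by
  unfold ent
  rw [Fintype.card_congr e]
  congr 2
  rw [← e.sum_comp (fun ω => Real.log (Nat.card {ω' // g ω' = g ω}))]
  refine Finset.sum_congr rfl fun ω _ => ?_
  congr 2
  exact Nat.card_congr (e.subtypeEquiv (fun a => Iff.rfl))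

/-- Splitting off the last coordinate. -/
def sn (B : Type) (m : ℕ) : (Fin m → B) × B ≃ (Fin (m + 1) → B) where
  toFun p := Fin.snoc (α := fun _ => B) p.1 p.2
  invFun ω := (Fin.init ω, ω (Fin.last m))
  left_inv p := by
    refine Prod.ext ?_ ?_
    · exact Fin.init_snoc (α := fun _ => B) p.2 p.1
    · exact Fin.snoc_last (α := fun _ => B) p.2 p.1
  right_inv ω := Fin.snoc_init_self (α := fun _ => B) ω

theorem chain (h1 : ENT_stmt.{0, v, v}) (h2 : ENT2_stmt.{0, v, v}) (B : Type) [Fintype B]
    [Nonempty B] (Z : Type v) :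
    ∀ (m : ℕ) (X : Fin m → (Fin m → B) → Z),
    (∀ p ω ω', (∀ q ≤ p, ω q = ω' q) → X p ω = X p ω') →
    ∑ p, (∑ ω : Fin m → B, ent (fun b : B => X p (Function.update ω p b))) /
      (Fintype.card B : ℝ) ^ m ≤ ent (fun (ω : Fin m → B) (p : Fin m) => X p ω) := by
  intro m
  induction m with
  | zero =>
    intro X _
    rw [Finset.univ_eq_empty, Finset.sum_empty]
    exact h1.1 _ _ _
  | succ m ih =>
    intro X hX
    obtain ⟨b₀⟩ := ‹Nonempty B›
    have : Nonempty B := ⟨b₀⟩
    have hN : (0 : ℝ) < Fintype.card B := by exact_mod_cast Fintype.card_pos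
    let S : (Fin m → B) → B → (Fin (m + 1) → B) := fun ω c => Fin.snoc (α := fun _ => B) ω c
    have hS1 : ∀ (ω : Fin m → B) (c : B) (q : Fin m), S ω c q.castSucc = ω q := fun ω c q =>
      Fin.snoc_castSucc (α := fun _ => B) c ω q
    have hS2 : ∀ (ω : Fin m → B) (c : B), S ω c (Fin.last m) = c := fun ω c =>
      Fin.snoc_last (α := fun _ => B) c ω
    -- the first coordinates do not see the last one
    have hfirst : ∀ (p : Fin m) (ω : Fin m → B) (c c' : B),
        X p.castSucc (S ω c) = X p.castSucc (S ω c') := by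
      intro p ω c c'
      refine hX _ _ _ fun q hq => ?_
      induction q using Fin.lastCases with
      | last => exact absurd hq (not_le.2 (Fin.castSucc_lt_last p))
      | cast q => rw [hS1, hS1]
    let X' : Fin m → (Fin m → B) → Z := fun p ω => X p.castSucc (S ω b₀)
    have hX' : ∀ p ω ω', (∀ q ≤ p, ω q = ω' q) → X' p ω = X' p ω' := by
      intro p ω ω' h
      refine hX _ _ _ fun q hq => ?_
      induction q using Fin.lastCases with
      | last => rw [hS2, hS2]
      | cast q =>
        rw [hS1, hS1]
        exact h q (Fin.castSucc_le_castSucc_iff.1 hq)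
    have hih := ih X' hX'
    have hsum : ∀ G : (Fin (m + 1) → B) → ℝ, ∑ ω, G ω = ∑ ω : Fin m → B, ∑ c : B, G (S ω c) := by
      intro G
      rw [← (sn B m).sum_comp G, Fintype.sum_prod_type]
      rfl
    have hcast : ∀ p : Fin m,
        (∑ ω : Fin (m + 1) → B,
          ent (fun b : B => X p.castSucc (Function.update ω p.castSucc b))) /
            (Fintype.card B : ℝ) ^ (m + 1) =
        (∑ ω : Fin m → B, ent (fun b : B => X' p (Function.update ω p b))) /
            (Fintype.card B : ℝ) ^ m := by
      intro p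
      rw [hsum]
      have : ∀ (ω : Fin m → B) (c : B),
          ent (fun b : B => X p.castSucc (Function.update (S ω c) p.castSucc b)) =
          ent (fun b : B => X' p (Function.update ω p b)) := by
        intro ω c
        congr 1
        funext b
        have : Function.update (S ω c) p.castSucc b = S (Function.update ω p b) c :=
          (Fin.snoc_update (α := fun _ => B) c ω p b).symm
        rw [this]
        exact hfirst _ _ _ _
      rw [Finset.sum_congr rfl fun ω _ => Finset.sum_congr rfl fun c _ => this ω c]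
      simp only [Finset.sum_const, Finset.card_univ, nsmul_eq_mul]
      rw [← Finset.mul_sum, pow_succ, mul_comm ((Fintype.card B : ℝ) ^ m), mul_div_mul_left _ _ hN.ne']
    have hlast : (∑ ω : Fin (m + 1) → B,
          ent (fun b : B => X (Fin.last m) (Function.update ω (Fin.last m) b))) /
            (Fintype.card B : ℝ) ^ (m + 1) =
        (∑ ω : Fin m → B, ent (fun b : B => X (Fin.last m) (S ω b))) /
            (Fintype.card B : ℝ) ^ m := by
      rw [hsum]
      have : ∀ (ω : Fin m → B) (c : B),
          ent (fun b : B => X (Fin.last m) (Function.update (S ω c) (Fin.last m) b)) =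
          ent (fun b : B => X (Fin.last m) (S ω b)) := by
        intro ω c
        congr 1
        funext b
        have : Function.update (S ω c) (Fin.last m) b = S ω b :=
          Fin.update_snoc_last (α := fun _ => B) c ω b
        rw [this]
      rw [Finset.sum_congr rfl fun ω _ => Finset.sum_congr rfl fun c _ => this ω c]
      simp only [Finset.sum_const, Finset.card_univ, nsmul_eq_mul]
      rw [← Finset.mul_sum, pow_succ, mul_comm ((Fintype.card B : ℝ) ^ m), mul_div_mul_left _ _ hN.ne']
    rw [Fin.sum_univ_castSucc, hlast, Finset.sum_congr rfl fun p _ => hcast p]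
    have h := h2 (Fin m → B) B (Fin m → Z) Z (fun ω p => X' p ω)
      (fun ω b => X (Fin.last m) (S ω b))
    have hcard : (Fintype.card (Fin m → B) : ℝ) = (Fintype.card B : ℝ) ^ m := by
      rw [Fintype.card_fun, Fintype.card_fin]
      push_cast
      rfl
    rw [hcard] at h
    have h3 : ent (fun p : (Fin m → B) × B =>
        ((fun q : Fin m => X' q p.1), X (Fin.last m) (S p.1 p.2))) ≤
        ent (fun p : (Fin m → B) × B => (fun q : Fin (m + 1) => X q (sn B m p))) := by
      refine h1.2.2 _ _ _ _ _ ?_
      rintro ⟨ω, c⟩ ⟨ω', c'⟩ h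
      refine Prod.ext ?_ ?_
      · funext q
        have := congrFun h q.castSucc
        change X q.castSucc (S ω c) = X q.castSucc (S ω' c') at this
        change X q.castSucc (S ω b₀) = X q.castSucc (S ω' b₀)
        rw [hfirst q ω b₀ c, hfirst q ω' b₀ c']
        exact this
      · exact congrFun h (Fin.last m)
    have h4 := ent_equiv (sn B m) (fun (ω : Fin (m + 1) → B) (q : Fin (m + 1)) => X q ω)
    calc _ ≤ _ := add_le_add_left hih _
      _ ≤ _ := h
      _ ≤ _ := h3
      _ = _ := h4

theorem CHN (h1 : ENT_stmt.{0, v, v}) (h1' : ENT_stmt.{0, u, v}) (h2 : ENT2_stmt.{0, v, v}) :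
    CHN_stmt.{u, v} := by
  intro B _ _ m Y Z _ F X hF hX
  refine (chain h1 h2 B Z m X hX).trans ((h1'.2.2 _ _ _ F _ ?_).trans (h1'.2.1 _ _ F))
  intro ω ω' h
  funext p
  exact hF p ω ω' h

end Pool.Agent.Helper89.GA
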